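import Pool.Agent.Helper31.RSU.RegLimit

set_option autoImplicit false

open Cardinal Set

namespace Pool.Agent.Helper31.RSU

universe u

variable {P : Type u} {adj : P → P → Prop} {S : Cardinal.{u} → Set P}

lemma exists_rank (X : Set P) (κ : Cardinal.{u}) (h : #X ≤ κ) :
    ∃ f : P → Ordinal.{u}, InjOn f X ∧ ∀ v ∈ X, f v < κ.ord := by
  classical
  rw [← mk_ord_toType κ] at h
  obtain ⟨e⟩ := h
  refine ⟨fun v => if hv : v ∈ X then Ordinal.typein (α := κ.ord.ToType) (· < ·) (e ⟨v, hv⟩) else 0,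
    ?_, ?_⟩
  · intro v hv w hw hvw
    simp only [hv, hw, dif_pos] at hvw
    have := (Ordinal.typein_injective (α := κ.ord.ToType) (· < ·)) hvw
    have h2 := e.injective this
    exact congrArg Subtype.val h2
  · intro v hv
    simp only [hv, dif_pos]
    exact Ordinal.typein_lt_self _

lemma card_rank_lt (X : Set P) (f : P → Ordinal.{u}) (hf : InjOn f X) (κ : Cardinal.{u}) :
    #{v | v ∈ X ∧ f v < κ.ord} ≤ κ := by
  have h1 : Cardinal.lift.{u + 1} #{v | v ∈ X ∧ f v < κ.ord} ≤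
      Cardinal.lift.{u} #(Iio κ.ord : Set Ordinal.{u}) := by
    refine Cardinal.lift_mk_le'.2 ⟨⟨fun v => ⟨f v.1, v.2.2⟩, ?_⟩⟩
    intro v w hvw
    exact Subtype.ext (hf v.2.1 w.2.1 (congrArg Subtype.val hvw))
  rw [Cardinal.mk_Iio_ordinal, card_ord, Cardinal.lift_lift, Cardinal.lift_le] at h1
  exact h1

theorem ext_chain (hS : IsKernel adj S) (hsymm : ∀ x y, adj x y → adj y x)
    {J : Type u} [LinearOrder J] [WellFoundedLT J] [OrderTop J] (c : J → Cardinal.{u})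
    (hmono : Monotone c) (hω : ∀ j, ℵ₀ ≤ c j) (hJ : ∀ j, #J ≤ c j)
    (hcont : ∀ (i : J) (A : Set J), A.Nonempty → (∀ j < i, ∃ a ∈ A, j < a) →
      ∀ x < c i, ∃ a ∈ A, x < c a)
    (hext : ∀ j : J, j ≠ ⊤ → ∃ j', j < j' ∧ Ext adj S (Order.succ (c j)) (Order.succ (c j')))
    (j₀ : J) : Ext adj S (Order.succ (c j₀)) (Order.succ (c ⊤)) := by
  classical
  set t : J → Cardinal.{u} := fun j => Order.succ (c j) with ht
  have htr : ∀ j, (t j).IsRegular := fun j => isRegular_succ (hω j)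
  have htm : Monotone t := fun i j hij => Order.succ_le_succ (hmono hij)
  have hct : ∀ j, c j < t j := fun j => Order.lt_succ _
  have hSm : ∀ i j : J, i ≤ j → S (t i) ⊆ S (t j) := fun i j hij =>
    hS.mono (htr i) (htr j) (htm hij)
  -- rank functions
  have hf : ∀ (h : P) (k : J), ∃ f : P → Ordinal.{u}, #(nb adj h ∩ S (t k) : Set P) ≤ c k →
      InjOn f (nb adj h ∩ S (t k)) ∧ ∀ v ∈ nb adj h ∩ S (t k), f v < (c k).ord := by
    intro h k
    by_cases hc : #(nb adj h ∩ S (t k) : Set P) ≤ c k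
    · obtain ⟨f, hf1, hf2⟩ := exists_rank _ _ hc
      exact ⟨f, fun _ => ⟨hf1, hf2⟩⟩
    · exact ⟨fun _ => 0, fun h => absurd h hc⟩
  choose f hf using hf
  have hfS : ∀ (i k : J) (h : P), i ≤ k → h ∈ S (t i) →
      InjOn (f h k) (nb adj h ∩ S (t k)) ∧ ∀ v ∈ nb adj h ∩ S (t k), f h k v < (c k).ord := by
    intro i k h hik hh
    exact hf h k (Order.le_of_lt_succ (hS.k1 (htr i) (htr k) (htm hik) hh))
  -- states
  let Closed : J → Set P → Set P → Prop := fun i Q H =>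
    ∀ h ∈ H, ∀ k, i ≤ k → ∀ v ∈ nb adj h ∩ S (t k), f h k v < (c i).ord → v ∈ Q
  -- closing off
  have hclose : ∀ (i : J) (Q H : Set P), PS adj S (t i) Q H →
      ∃ Q', Q ⊆ Q' ∧ PS adj S (t i) Q' H ∧ Closed i Q' H := by
    intro i Q H hp
    let U : Set P := ⋃ h ∈ H, ⋃ k : J, {v | i ≤ k ∧ v ∈ nb adj h ∩ S (t k) ∧ f h k v < (c i).ord}
    have hU : #U < t i := by
      rw [card_biUnion_lt_iff_forall_of_isRegular (htr i)
        ((mk_le_mk_of_subset hp.sub).trans_lt hp.card)]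
      intro h hh
      rw [card_iUnion_lt_iff_forall_of_isRegular (htr i) ((hJ i).trans_lt (hct i))]
      intro k
      by_cases hik : i ≤ k
      · have h1 := card_rank_lt (nb adj h ∩ S (t k)) (f h k) (hfS i k h hik (hp.subS hh)).1 (c i)
        refine lt_of_le_of_lt (le_trans (mk_le_mk_of_subset ?_) h1) (hct i)
        rintro v ⟨_, h2, h3⟩
        exact ⟨h2, h3⟩
      · have : {v | i ≤ k ∧ v ∈ nb adj h ∩ S (t k) ∧ f h k v < (c i).ord} = (∅ : Set P) := by
          ext v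
          simp [hik]
        rw [this]
        simpa using (htr i).pos
    refine ⟨Q ∪ U, subset_union_left, hp.enlarge subset_union_left ?_, ?_⟩
    · exact (mk_union_le _ _).trans_lt (add_lt_of_lt (htr i).aleph0_le hp.card hU)
    · intro h hh k hik v hv hfv
      exact Or.inr (mem_biUnion hh (mem_iUnion.2 ⟨k, hik, hv, hfv⟩))
  let Sat : Set P → Set P → Cardinal.{u} → Cardinal.{u} → Prop := fun Q H a b =>
    ∀ v ∈ Q, ∀ θ : Cardinal.{u}, θ.IsRegular → a ≤ θ → θ < b →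
      θ ≤ #(nb adj v ∩ S θ : Set P) → (nb adj v ∩ H).Infinite
  have Sat_mono : ∀ {Q H H' : Set P} {a b : Cardinal.{u}}, H ⊆ H' → Sat Q H a b → Sat Q H' a b :=
    fun hH h v hv θ hθ h1 h2 h3 => (h v hv θ hθ h1 h2 h3).mono (inter_subset_inter_right _ hH)
  let R : J × Set P × Set P → J × Set P × Set P → Prop := fun p q =>
    p = q ∨ (p.1 < q.1 ∧ p.2.1 ⊆ q.2.1 ∧ p.2.2 ⊆ q.2.2 ∧ Sat p.2.1 q.2.2 (t p.1) (t q.1))
  have Rtrans : ∀ {p q r}, R p q → R q r → R p r := by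
    rintro p q r (rfl | ⟨h1, h2, h3, h4⟩) hqr
    · exact hqr
    · rcases hqr with rfl | ⟨g1, g2, g3, g4⟩
      · exact Or.inr ⟨h1, h2, h3, h4⟩
      · refine Or.inr ⟨h1.trans g1, h2.trans g2, h3.trans g3, fun v hv θ hθ a1 a2 a3 => ?_⟩
        by_cases hc : θ < t q.1
        · exact (h4 v hv θ hθ a1 hc a3).mono (inter_subset_inter_right _ g3)
        · exact g4 v (h2 hv) θ hθ (not_lt.1 hc) a2 a3
  have Rle : ∀ {p q}, R p q → p.1 ≤ q.1 := by
    rintro p q (rfl | ⟨h1, _⟩)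
    · exact le_rfl
    · exact h1.le
  have RQ : ∀ {p q}, R p q → p.2.1 ⊆ q.2.1 := by
    rintro p q (rfl | ⟨_, h1, _⟩)
    · exact Subset.rfl
    · exact h1
  have RH : ∀ {p q}, R p q → p.2.2 ⊆ q.2.2 := by
    rintro p q (rfl | ⟨_, _, h1, _⟩)
    · exact Subset.rfl
    · exact h1
  intro Q₀ H₀ hp₀
  obtain ⟨Q₁, hQ₀₁, hp₁, hcl₁⟩ := hclose j₀ Q₀ H₀ hp₀
  let st : J × Set P × Set P := (j₀, Q₁, H₀)
  let St : Type u := {p : J × Set P × Set P // PS adj S (t p.1) p.2.1 p.2.2 ∧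
    Closed p.1 p.2.1 p.2.2 ∧ R st p}
  have hne : Nonempty St := ⟨⟨st, hp₁, hcl₁, Or.inl rfl⟩⟩
  have hchain : ∀ C : Set St, IsChain (fun p q : St => R p.1 q.1) C → C.Nonempty →
      ∃ ub : St, ∀ a ∈ C, R a.1 ub.1 := by
    intro C hC hCne
    by_cases hmax : ∃ m ∈ C, ∀ a ∈ C, R a.1 m.1
    · obtain ⟨m, _, hm⟩ := hmax
      exact ⟨m, hm⟩
    push Not at hmax
    have htot : ∀ p ∈ C, ∀ q ∈ C, R p.1 q.1 ∨ R q.1 p.1 := by
      intro p hp q hq
      by_cases hpq : p = q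
      · subst hpq
        exact Or.inl (Or.inl rfl)
      · exact hC hp hq hpq
    have hnext : ∀ p ∈ C, ∃ q ∈ C, p.1.1 < q.1.1 := by
      intro p hp
      obtain ⟨a, ha, hna⟩ := hmax p hp
      rcases htot p hp a ha with h | h
      · rcases h with h | h
        · exact absurd (Or.inl h.symm) hna
        · exact ⟨a, ha, h.1⟩
      · exact absurd h hna
    -- joint upper bounds
    have hjoin : ∀ p ∈ C, ∀ q ∈ C, ∃ r ∈ C, R p.1 r.1 ∧ R q.1 r.1 := by
      intro p hp q hq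
      rcases htot p hp q hq with h | h
      · exact ⟨q, hq, h, Or.inl rfl⟩
      · exact ⟨p, hp, Or.inl rfl, h⟩
    obtain ⟨p₀, hp₀C⟩ := hCne
    let B : Set J := {i | ∀ p ∈ C, p.1.1 < i}
    have hBne : B.Nonempty := by
      refine ⟨⊤, fun p hp => ?_⟩
      obtain ⟨q, _, hq⟩ := hnext p hp
      exact hq.trans_le le_top
    obtain ⟨i, hiB, himin⟩ := (wellFounded_lt (α := J)).has_min B hBne
    have hcof : ∀ j < i, ∃ p ∈ C, j < p.1.1 := by
      intro j hj
      have : j ∉ B := fun h => himin j h hj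
      simp only [B, mem_setOf_eq, not_forall, not_lt] at this
      obtain ⟨p, hp, hjp⟩ := this
      obtain ⟨q, hq, hpq⟩ := hnext p hp
      exact ⟨q, hq, lt_of_le_of_lt hjp hpq⟩
    have hci : ∀ x < c i, ∃ p ∈ C, x < c p.1.1 := by
      intro x hx
      obtain ⟨a, ⟨p, hp, rfl⟩, ha⟩ := hcont i ((fun p : St => p.1.1) '' C) ⟨_, p₀, hp₀C, rfl⟩
        (fun j hj => by
          obtain ⟨p, hp, hjp⟩ := hcof j hj
          exact ⟨_, ⟨p, hp, rfl⟩, hjp⟩) x hx
      exact ⟨p, hp, ha⟩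
    have hCc : #C ≤ #J := by
      refine mk_le_of_injective (f := fun p : C => p.1.1.1) ?_
      intro p q hpq
      rcases htot p.1 p.2 q.1 q.2 with h | h
      · rcases h with h | h
        · exact Subtype.ext (Subtype.ext h)
        · exact absurd hpq h.1.ne
      · rcases h with h | h
        · exact Subtype.ext (Subtype.ext h.symm)
        · exact absurd hpq h.1.ne'
    have hCi : #C < t i := hCc.trans_lt ((hJ i).trans_lt (hct i))
    -- the key estimate on regular cardinals below `t i`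
    have hreg : ∀ θ : Cardinal.{u}, θ.IsRegular → θ < t i → (∃ p ∈ C, t p.1.1 ≤ θ) →
        ∃ q ∈ C, θ < t q.1.1 := by
      rintro θ hθ hθi ⟨p, hp, hpθ⟩
      by_contra hcon
      push Not at hcon
      have hle : ∀ q ∈ C, c q.1.1 < θ := fun q hq => (hct _).trans_le (hcon q hq)
      have hCθ : #C < θ := hCc.trans_lt ((hJ p.1.1).trans_lt ((hct _).trans_le hpθ))
      have h1 : (⨆ q : C, c q.1.1.1) < θ :=
        iSup_lt_of_lt_cof_ord (by rwa [hθ.cof_ord]) (fun q => hle q.1 q.2)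
      have h2 : c i ≤ ⨆ q : C, c q.1.1.1 := by
        refine le_of_forall_lt (fun x hx => ?_)
        obtain ⟨q, hq, hxq⟩ := hci x hx
        exact hxq.trans_le (le_ciSup (f := fun q : C => c q.1.1.1) (bddAbove_range _) ⟨q, hq⟩)
      exact absurd (h2.trans_lt h1) (not_lt.2 (Order.le_of_lt_succ hθi))
    let Q : Set P := ⋃ p ∈ C, p.1.2.1
    let H : Set P := ⋃ p ∈ C, p.1.2.2
    have hQp : ∀ p ∈ C, p.1.2.1 ⊆ Q := fun p hp => subset_biUnion_of_mem (u := fun p : St => p.1.2.1) hp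
    have hHp : ∀ p ∈ C, p.1.2.2 ⊆ H := fun p hp => subset_biUnion_of_mem (u := fun p : St => p.1.2.2) hp
    have hmemQ : ∀ v ∈ Q, ∃ p ∈ C, v ∈ p.1.2.1 := by
      intro v hv
      simpa [Q] using hv
    have hmemH : ∀ v ∈ H, ∃ p ∈ C, v ∈ p.1.2.2 := by
      intro v hv
      simpa [H] using hv
    -- planning
    have hplan : ∀ h ∈ H, ∀ k, i ≤ k → ∀ v ∈ nb adj h ∩ S (t k), f h k v < (c i).ord → v ∈ Q := by
      intro h hh k hik v hv hfv
      obtain ⟨p, hp, hhp⟩ := hmemH h hh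
      rw [Cardinal.lt_ord] at hfv
      obtain ⟨q, hq, hfq⟩ := hci _ hfv
      rw [← Cardinal.lt_ord] at hfq
      obtain ⟨r, hr, hpr, hqr⟩ := hjoin p hp q hq
      have hri : r.1.1 < i := hiB r hr
      refine hQp r hr (r.2.2.1 h (RH hpr hhp) k (hri.le.trans hik) v hv (hfq.trans_le ?_))
      exact ord_le_ord.2 (hmono (Rle hqr))
    have hout : ∀ v ∈ S (t i), v ∉ Q → nb adj v ∩ H = ∅ := by
      intro v hv hvQ
      rw [← not_nonempty_iff_eq_empty]
      rintro ⟨h, hvh, hh⟩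
      obtain ⟨p, hp, hhp⟩ := hmemH h hh
      have h1 : v ∈ nb adj h ∩ S (t i) := ⟨hsymm _ _ hvh, hv⟩
      exact hvQ (hplan h hh i le_rfl v h1 ((hfS p.1.1 i h (hiB p hp).le (p.2.1.subS hhp)).2 v h1))
    have hSat : ∀ p ∈ C, Sat p.1.2.1 H (t p.1.1) (t i) := by
      intro p hp v hv θ hθ h1 h2 h3
      obtain ⟨q, hq, hθq⟩ := hreg θ hθ h2 ⟨p, hp, h1⟩
      have hpq : t p.1.1 < t q.1.1 := h1.trans_lt hθq
      rcases htot p hp q hq with h | h
      · rcases h with h | h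
        · rw [h] at hpq
          exact absurd hpq (lt_irrefl _)
        · exact (h.2.2.2 v hv θ hθ h1 hθq h3).mono (inter_subset_inter_right _ (hHp q hq))
      · exact absurd (htm (Rle h)) (not_le.2 hpq)
    have hPS : PS adj S (t i) Q H := by
      refine ⟨?_, ?_, ?_, ?_, ?_, hout⟩
      · rw [card_biUnion_lt_iff_forall_of_isRegular (htr i) hCi]
        intro p hp
        exact p.2.1.card.trans_le (htm (hiB p hp).le)
      · intro x hx
        obtain ⟨p, hp, hxp⟩ := hmemH x hx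
        exact hQp p hp (p.2.1.sub hxp)
      · intro x hx
        obtain ⟨p, hp, hxp⟩ := hmemH x hx
        exact hSm _ _ (hiB p hp).le (p.2.1.subS hxp)
      · intro x hx y hy
        obtain ⟨p, hp, hxp⟩ := hmemH x hx
        obtain ⟨q, hq, hyq⟩ := hmemH y hy
        obtain ⟨r, hr, hpr, hqr⟩ := hjoin p hp q hq
        exact r.2.1.anti x (RH hpr hxp) y (RH hqr hyq)
      · intro v hv
        by_cases hvQ : v ∈ Q
        · by_cases ha : ∃ p ∈ C, v ∈ S (t p.1.1)
          · obtain ⟨p, hp, hvp⟩ := ha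
            by_cases hinf : ∃ q ∈ C, (nb adj v ∩ q.1.2.2).Infinite
            · obtain ⟨q, hq, hinf⟩ := hinf
              exact Or.inr (hinf.mono (inter_subset_inter_right _ (hHp q hq)))
            · left
              rintro x ⟨hx1, hx2⟩ y ⟨hy1, hy2⟩
              obtain ⟨a, ha, hxa⟩ := hmemH x hx2
              obtain ⟨b, hb, hyb⟩ := hmemH y hy2
              obtain ⟨r, hr, har, hbr⟩ := hjoin a ha b hb
              obtain ⟨s, hs, hrs, hps⟩ := hjoin r hr p hp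
              rcases s.2.1.ok v (hSm _ _ (Rle hps) hvp) with h | h
              · exact h ⟨hx1, RH hrs (RH har hxa)⟩ ⟨hy1, RH hrs (RH hbr hyb)⟩
              · exact absurd ⟨s, hs, h⟩ hinf
          · push Not at ha
            obtain ⟨p, hp, hvp⟩ := hmemQ v hvQ
            obtain ⟨θ, hθ, hle, hlarge⟩ := hS.k2 (htr p.1.1) (ha p hp)
            right
            refine hSat p hp v hvp θ hθ hle ?_ hlarge
            by_contra hcon
            exact absurd (hS.k1 (htr i) hθ (not_lt.1 hcon) hv) (not_lt.2 hlarge)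
        · left
          rw [hout v hv hvQ]
          exact subsingleton_empty
    have hRub : ∀ p ∈ C, R p.1 (i, Q, H) := fun p hp =>
      Or.inr ⟨hiB p hp, hQp p hp, hHp p hp, hSat p hp⟩
    exact ⟨⟨(i, Q, H), hPS, hplan, Rtrans p₀.2.2.2 (hRub p₀ hp₀C)⟩, hRub⟩
  obtain ⟨m, hm⟩ := exists_maximal_of_nonempty_chains_bounded
    (r := fun p q : St => R p.1 q.1) hchain (fun h1 h2 => Rtrans h1 h2)
  have hmtop : m.1.1 = ⊤ := by
    by_contra hmt
    obtain ⟨j', hj', hE⟩ := hext m.1.1 hmt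
    obtain ⟨Q', H', hp', hQ', hH', hsat'⟩ := hE m.1.2.1 m.1.2.2 m.2.1
    obtain ⟨Q'', hQ'', hp'', hcl''⟩ := hclose j' Q' H' hp'
    have hR : R m.1 (j', Q'', H') := Or.inr ⟨hj', hQ'.trans hQ'', hH', hsat'⟩
    have := hm ⟨(j', Q'', H'), hp'', hcl'', Rtrans m.2.2.2 hR⟩ hR
    exact absurd (Rle this) (not_le.2 hj')
  have hPSm := m.2.1
  rw [hmtop] at hPSm
  refine ⟨m.1.2.1, m.1.2.2, hPSm, hQ₀₁.trans (RQ m.2.2.2), RH (p := st) m.2.2.2, ?_⟩
  intro v hv θ hθ h1 h2 h3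
  rcases m.2.2.2 with h | ⟨g1, g2, g3, g4⟩
  · have h4 : j₀ = ⊤ := by rw [← hmtop, ← h]
    rw [h4] at h1
    exact absurd h2 (not_lt.2 h1)
  · refine g4 v (hQ₀₁ hv) θ hθ h1 ?_ h3
    rw [hmtop]
    exact h2

end Pool.Agent.Helper31.RSU
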