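import Pool.Agent.Helper31.RSU.Kernel

set_option autoImplicit false

open Cardinal Set

namespace Pool.Agent.Helper31.RSU

universe u

lemma iUnion_nat_lt {P : Type u} {κ : Cardinal.{u}} (hκ : κ.IsRegular) (hω : ℵ₀ < κ)
    {Q : ℕ → Set P} : #(⋃ n, Q n : Set P) < κ ↔ ∀ n, #(Q n) < κ := by
  have hU : (⋃ n, Q n) = ⋃ n : ULift.{u} ℕ, Q n.down := by
    ext x
    simp only [mem_iUnion]
    exact ⟨fun ⟨n, hn⟩ => ⟨⟨n⟩, hn⟩, fun ⟨n, hn⟩ => ⟨n.down, hn⟩⟩
  rw [hU, card_iUnion_lt_iff_forall_of_isRegular hκ (by simpa using hω)]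
  exact ⟨fun h n => h ⟨n⟩, fun h n => h n.down⟩

lemma diff_nonempty_of_card {P : Type u} {θ : Cardinal.{u}} {A F : Set P} (hA : θ ≤ #A)
    (hF : #F < θ) : (A \ F).Nonempty := by
  by_contra h
  rw [not_nonempty_iff_eq_empty, diff_eq_empty] at h
  exact absurd (hA.trans (mk_le_mk_of_subset h)) (not_le.2 hF)

/-- A greedy choice of length `θ` (regular): pick `g i ∈ A i` outside the forbidden sets of all
earlier picks. -/
lemma greedy {P : Type u} {θ : Cardinal.{u}} (hθ : θ.IsRegular)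
    (A : θ.ord.ToType → Set P) (hA : ∀ i, θ ≤ #(A i)) (K : P → Set P)
    (hK : ∀ i, ∀ x ∈ A i, #(K x) < θ) :
    ∃ g : θ.ord.ToType → P, (∀ i, g i ∈ A i) ∧ ∀ i j, j < i → g i ∉ K (g j) := by
  classical
  have key : ∀ (i : θ.ord.ToType) (f : ∀ j, j < i → {x // x ∈ A j}),
      ∃ x : {x // x ∈ A i}, ∀ j (hj : j < i), x.1 ∉ K (f j hj).1 := by
    intro i f
    have hF : #(⋃ j : Iio i, K (f j.1 j.2).1 : Set P) < θ := by
      rw [card_iUnion_lt_iff_forall_of_isRegular hθ (mk_Iio_toType_ord_lt i)]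
      intro j
      exact hK j.1 _ (f j.1 j.2).2
    obtain ⟨x, hx1, hx2⟩ := diff_nonempty_of_card (hA i) hF
    refine ⟨⟨x, hx1⟩, fun j hj hx => hx2 ?_⟩
    exact mem_iUnion.2 ⟨⟨j, hj⟩, hx⟩
  choose F hF using key
  let g : ∀ i : θ.ord.ToType, {x // x ∈ A i} :=
    (wellFounded_lt (α := θ.ord.ToType)).fix (fun i f => F i f)
  have hg : ∀ i, g i = F i (fun j _ => g j) := fun i =>
    (wellFounded_lt (α := θ.ord.ToType)).fix_eq _ i
  refine ⟨fun i => (g i).1, fun i => (g i).2, fun i j hj => ?_⟩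
  have := hF i (fun j _ => g j) j hj
  simpa only [← hg i] using this

end Pool.Agent.Helper31.RSU
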