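import Pool.Agent.Helper31.RSU.Singular

set_option autoImplicit false

open Cardinal Set

namespace Pool.Agent.Helper31.RSU

section Graph

universe u

variable {P : Type u} {adj : P → P → Prop} {S : Cardinal.{u} → Set P}

theorem exists_good [Infinite P] (hS : IsKernel adj S) (hsymm : ∀ x y, adj x y → adj y x)
    (hirr : ∀ x, ¬ adj x x) :
    ∃ H : Set P, H.Infinite ∧ (∀ x ∈ H, ∀ y ∈ H, ¬ adj x y) ∧
      ∀ v, (nb adj v ∩ H).Subsingleton ∨ (nb adj v ∩ H).Infinite := by
  classical
  by_cases hlarge : ∃ (v : P) (θ : Cardinal.{u}), θ.IsRegular ∧ θ ≤ #(nb adj v ∩ S θ : Set P)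
  · obtain ⟨v, θ, hθ, hl⟩ := hlarge
    set κ : Cardinal.{u} := Order.succ #P with hκ
    have hκr : κ.IsRegular := isRegular_succ (aleph0_le_mk P)
    have huniv : ∀ w : P, w ∈ S κ := by
      intro w
      by_contra hw
      obtain ⟨θ', _, h1, h2⟩ := hS.k2 hκr hw
      exact absurd ((Order.lt_succ #P).trans_le (h1.trans (h2.trans (mk_set_le _)))) (lt_irrefl _)
    have hPS : PS adj S ℵ₀ {v} ∅ := by
      refine ⟨?_, empty_subset _, empty_subset _, ?_, ?_, ?_⟩
      · rw [mk_singleton]
        exact one_lt_aleph0
      · simp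
      · intro w _
        left
        simp
      · intro w _ _
        simp
    obtain ⟨Q', H', hp, hQ, _, hsat⟩ := ext_all hS hsymm hirr κ ℵ₀ isRegular_aleph0 hκr
      hκr.aleph0_le {v} ∅ hPS
    have hinf := hsat v rfl θ hθ hθ.aleph0_le
      ((hl.trans (mk_set_le _)).trans_lt (Order.lt_succ _)) hl
    exact ⟨H', hinf.mono inter_subset_right, hp.anti, fun w => hp.ok w (huniv w)⟩
  · push Not at hlarge
    have hSu : S ℵ₀ = Set.univ := by
      rw [eq_univ_iff_forall]
      intro w
      by_contra hw
      obtain ⟨θ', hr, _, h2⟩ := hS.k2 isRegular_aleph0 hw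
      exact absurd h2 (not_le.2 (hlarge w θ' hr))
    have hnb : ∀ w, #(nb adj w) < ℵ₀ := by
      intro w
      have := hlarge w ℵ₀ isRegular_aleph0
      rwa [hSu, inter_univ] at this
    let K : P → Set P := fun x => {x} ∪ (nb adj x ∪ ⋃ v ∈ nb adj x, nb adj v)
    have hK : ∀ x, #(K x) < ℵ₀ := by
      intro x
      refine (mk_union_le _ _).trans_lt (add_lt_of_lt le_rfl ?_ ?_)
      · rw [mk_singleton]
        exact one_lt_aleph0
      · refine (mk_union_le _ _).trans_lt (add_lt_of_lt le_rfl (hnb x) ?_)
        rw [card_biUnion_lt_iff_forall_of_isRegular isRegular_aleph0 (hnb x)]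
        exact fun v _ => hnb v
    obtain ⟨g, _, hg⟩ := greedy isRegular_aleph0 (fun _ => (Set.univ : Set P))
      (fun _ => by rw [Cardinal.mk_univ]; exact aleph0_le_mk P) K (fun _ x _ => hK x)
    have hgne : ∀ i j, i ≠ j → g i ∉ K (g j) ∨ g j ∉ K (g i) := by
      intro i j hij
      rcases lt_or_gt_of_ne hij with h | h
      · exact Or.inr (hg j i h)
      · exact Or.inl (hg i j h)
    have hginj : Function.Injective g := by
      intro i j hij
      by_contra hne
      rcases hgne i j hne with h | h
      · exact h (by rw [hij]; exact Or.inl rfl)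
      · exact h (by rw [hij]; exact Or.inl rfl)
    have hinfI : Infinite (ℵ₀ : Cardinal.{u}).ord.ToType := by
      rw [infinite_iff, mk_ord_toType]
    have hcommon : ∀ v i j, adj v (g i) → adj v (g j) → i = j := by
      intro v i j h1 h2
      by_contra hne
      rcases hgne i j hne with h | h
      · exact h (Or.inr (Or.inr (mem_biUnion (show v ∈ nb adj (g j) from hsymm _ _ h2) h1)))
      · exact h (Or.inr (Or.inr (mem_biUnion (show v ∈ nb adj (g i) from hsymm _ _ h1) h2)))
    refine ⟨range g, infinite_range_of_injective hginj, ?_, ?_⟩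
    · rintro x ⟨i, rfl⟩ y ⟨j, rfl⟩ hadj
      by_cases hij : i = j
      · subst hij
        exact hirr _ hadj
      · rcases hgne i j hij with h | h
        · exact h (Or.inr (Or.inl (hsymm _ _ hadj)))
        · exact h (Or.inr (Or.inl hadj))
    · intro v
      left
      rintro x ⟨h1, ⟨i, rfl⟩⟩ y ⟨h2, ⟨j, rfl⟩⟩
      rw [hcommon v i j h1 h2]

end Graph

/-- Every infinite poset without infinite chains has an infinite antichain `H` such that every
element is comparable to none, exactly one, or infinitely many elements of `H`. -/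
theorem exists_antichain.{v} (P : Type v) [PartialOrder P] [Infinite P] [WellFoundedLT P]
    [WellFoundedGT P] :
    ∃ H : Set P, H.Infinite ∧ IsAntichain (· ≤ ·) H ∧
      ∀ x : P,
        ({h | h ∈ H ∧ (x ≤ h ∨ h ≤ x)}.encard = 0 ∨
         {h | h ∈ H ∧ (x ≤ h ∨ h ≤ x)}.encard = 1 ∨
         {h | h ∈ H ∧ (x ≤ h ∨ h ≤ x)}.Infinite) := by
  classical
  obtain ⟨S, hS⟩ := exists_kernel (P := P)
  obtain ⟨H, hinf, hanti, hok⟩ := exists_good hS
    (fun x y h => h.symm.imp id id) (fun x h => by rcases h with h | h <;> exact lt_irrefl _ h)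
  refine ⟨H, hinf, ?_, ?_⟩
  · intro x hx y hy hne hle
    exact hanti x hx y hy (Or.inr (lt_of_le_of_ne hle hne))
  · intro x
    by_cases hx : x ∈ H
    · right; left
      have : {h | h ∈ H ∧ (x ≤ h ∨ h ≤ x)} = {x} := by
        ext h
        constructor
        · rintro ⟨hh, hc⟩
          by_contra hne
          have hne' : h ≠ x := hne
          rcases hc with hc | hc
          · exact hanti x hx h hh (Or.inr (lt_of_le_of_ne hc hne'.symm))
          · exact hanti x hx h hh (Or.inl (lt_of_le_of_ne hc hne'))
        · rintro rfl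
          exact ⟨hx, Or.inl le_rfl⟩
      rw [this]
      exact encard_singleton x
    · have : {h | h ∈ H ∧ (x ≤ h ∨ h ≤ x)} = nb (fun a b : P => b < a ∨ a < b) x ∩ H := by
        ext h
        constructor
        · rintro ⟨hh, hc⟩
          have hne : h ≠ x := fun h' => hx (h' ▸ hh)
          refine ⟨?_, hh⟩
          rcases hc with hc | hc
          · exact Or.inr (lt_of_le_of_ne hc hne.symm)
          · exact Or.inl (lt_of_le_of_ne hc hne)
        · rintro ⟨hc, hh⟩
          refine ⟨hh, ?_⟩
          rcases hc with hc | hc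
          · exact Or.inr hc.le
          · exact Or.inl hc.le
      rw [this]
      rcases hok x with h | h
      · rcases h.eq_empty_or_singleton with h | ⟨y, h⟩
        · left
          rw [h]
          exact encard_empty
        · right; left
          rw [h]
          exact encard_singleton y
      · right; right
        exact h

end Pool.Agent.Helper31.RSU
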