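import Pool.Agent.Helper31.RSU.Chain

set_option autoImplicit false

open Cardinal Set

namespace Pool.Agent.Helper31.RSU

universe u

variable {P : Type u} {adj : P → P → Prop} {S : Cardinal.{u} → Set P}

/-- The singular step. -/
theorem ext_singular (hS : IsKernel adj S) (hsymm : ∀ x y, adj x y → adj y x)
    {ν : Cardinal.{u}} (hν : ν.IsSingular)
    {θ₀ : Cardinal.{u}} (hθ₀ : θ₀.IsRegular) (hlt : θ₀ < ν)
    (IH : ∀ θ θ' : Cardinal.{u}, θ.IsRegular → θ'.IsRegular → θ ≤ θ' → θ' < ν → Ext adj S θ θ') :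
    Ext adj S θ₀ (Order.succ ν) := by
  classical
  have hlim : ∀ c < ν, Order.succ c < ν := fun c hc => hν.isSuccLimit.succ_lt hc
  obtain ⟨s, hs, hsc⟩ := Order.exists_cof_eq (ν.ord.ToType)
  rw [Ordinal.cof_toType] at hsc
  have hμν : #s < ν := by rw [hsc]; exact hν.cof_ord_lt
  let n : s → Cardinal.{u} := fun i => #(Iio i.1)
  have hnν : ∀ i, n i < ν := fun i => mk_Iio_toType_ord_lt i.1
  have hnmono : ∀ i j : s, i ≤ j → n i ≤ n j := fun i j hij =>
    mk_le_mk_of_subset (fun x hx => lt_of_lt_of_le (show x < i.1 from hx)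
      (Subtype.coe_le_coe.2 hij))
  have hncof : ∀ x < ν, ∃ i : s, x ≤ n i := by
    intro x hx
    have hx' : x.ord < Ordinal.type (α := ν.ord.ToType) (· < ·) := by
      rw [Ordinal.type_toType]
      exact ord_lt_ord.2 hx
    obtain ⟨a, ha⟩ := Ordinal.typein_surj (α := ν.ord.ToType) (· < ·) hx'
    obtain ⟨i, his, hai⟩ := hs a
    refine ⟨⟨i, his⟩, ?_⟩
    have h1 : #(Iio a) = x := by
      have := Ordinal.card_typein (r := ((· < ·) : ν.ord.ToType → ν.ord.ToType → Prop)) a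
      rw [ha, card_ord] at this
      exact this.symm
    rw [← h1]
    exact mk_le_mk_of_subset (fun y hy => lt_of_lt_of_le hy hai)
  have hnolast : ∀ i : s, ∃ j : s, i < j := by
    intro i
    obtain ⟨j, hj⟩ := hncof _ (hlim _ (hnν i))
    refine ⟨j, ?_⟩
    by_contra hcon
    have h1 := hnmono j i (not_lt.1 hcon)
    exact absurd ((Order.lt_succ (n i)).trans_le (hj.trans h1)) (lt_irrefl _)
  have hsne : Nonempty s := by
    obtain ⟨i, _⟩ := hncof 0 hν.pos
    exact ⟨i⟩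
  let c₀ : Cardinal.{u} := max θ₀ #s
  have hc₀ν : c₀ < ν := max_lt hlt hμν
  have hc₀ω : ℵ₀ ≤ c₀ := hθ₀.aleph0_le.trans (le_max_left _ _)
  let c : WithTop s → Cardinal.{u} := fun i => max c₀ (⨆ j : {j : s // (j : WithTop s) < i}, n j.1)
  have hc₀c : ∀ i, c₀ ≤ c i := fun i => le_max_left _ _
  have hmem : ∀ (i : WithTop s) (j : s), (j : WithTop s) < i → n j ≤ c i := by
    intro i j hj
    refine le_trans ?_ (le_max_right _ _)
    exact le_ciSup (f := fun j : {j : s // (j : WithTop s) < i} => n j.1)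
      (bddAbove_range _) ⟨j, hj⟩
  have hcmono : Monotone c := by
    intro i i' hii'
    refine max_le (le_max_left _ _) ?_
    exact ciSup_le' (fun j => hmem i' j.1 (j.2.trans_le hii'))
  have hctop : c ⊤ = ν := by
    apply le_antisymm
    · exact max_le hc₀ν.le (ciSup_le' (fun j => (hnν j.1).le))
    · refine le_of_forall_lt (fun x hx => ?_)
      obtain ⟨j, hj⟩ := hncof _ (hlim x hx)
      exact (Order.lt_succ x).trans_le (hj.trans (hmem ⊤ j (WithTop.coe_lt_top j)))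
  have hclt : ∀ i : s, c i < ν := by
    intro i
    refine max_lt hc₀ν (lt_of_le_of_lt (ciSup_le' (fun j => ?_)) (hnν i))
    exact hnmono _ _ (WithTop.coe_le_coe.1 j.2.le)
  have hω : ∀ j, ℵ₀ ≤ c j := fun j => hc₀ω.trans (hc₀c j)
  have hJ : ∀ j, #(WithTop s) ≤ c j := by
    intro j
    refine le_trans ?_ (hc₀c j)
    have h1 : #(WithTop s) = #s + 1 := mk_option
    rw [h1]
    exact add_le_of_le hc₀ω (le_max_right _ _) (one_le_aleph0.trans hc₀ω)
  have hcont : ∀ (i : WithTop s) (A : Set (WithTop s)), A.Nonempty →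
      (∀ j < i, ∃ a ∈ A, j < a) → ∀ x < c i, ∃ a ∈ A, x < c a := by
    rintro i A ⟨a₀, ha₀⟩ hA x hx
    rcases lt_max_iff.1 hx with h | h
    · exact ⟨a₀, ha₀, h.trans_le (hc₀c _)⟩
    · obtain ⟨j, hj⟩ := exists_lt_of_lt_ciSup' h
      obtain ⟨a, ha, hja⟩ := hA j.1 j.2
      exact ⟨a, ha, hj.trans_le (hmem a j.1 hja)⟩
  have hext : ∀ j : WithTop s, j ≠ ⊤ →
      ∃ j', j < j' ∧ Ext adj S (Order.succ (c j)) (Order.succ (c j')) := by
    intro j hj
    obtain ⟨i, rfl⟩ := WithTop.ne_top_iff_exists.1 hj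
    obtain ⟨i', hi'⟩ := hnolast i
    refine ⟨i', WithTop.coe_lt_coe.2 hi', ?_⟩
    exact IH _ _ (isRegular_succ (hω _)) (isRegular_succ (hω _))
      (Order.succ_le_succ (hcmono (WithTop.coe_le_coe.2 hi'.le))) (hlim _ (hclt i'))
  obtain ⟨i₀⟩ := hsne
  have h2 := ext_chain hS hsymm c hcmono hω hJ hcont hext (i₀ : WithTop s)
  rw [hctop] at h2
  refine Ext.trans (IH θ₀ _ hθ₀ (isRegular_succ (hω _)) ?_ (hlim _ (hclt i₀))) h2
  exact ((le_max_left _ _).trans (hc₀c _)).trans (Order.le_succ _)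

/-- The extension property holds between any two regular cardinals. -/
theorem ext_all (hS : IsKernel adj S) (hsymm : ∀ x y, adj x y → adj y x)
    (hirr : ∀ x, ¬ adj x x) (θ₁ : Cardinal.{u}) :
    ∀ θ₀ : Cardinal.{u}, θ₀.IsRegular → θ₁.IsRegular → θ₀ ≤ θ₁ → Ext adj S θ₀ θ₁ := by
  induction θ₁ using WellFoundedLT.induction with
  | ind θ₁ ih =>
    intro θ₀ hθ₀ hθ₁ hle
    rcases hle.eq_or_lt with rfl | hlt
    · exact Ext.refl _
    by_cases hlim : ∀ c < θ₁, Order.succ c < θ₁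
    · exact ext_regLimit hS hsymm hθ₁ hlim hθ₀ hlt
        (fun θ θ' h1 h2 h3 h4 => ih θ' h4 θ h1 h2 h3)
    · push Not at hlim
      obtain ⟨ν, hν, hν'⟩ := hlim
      have heq : Order.succ ν = θ₁ := le_antisymm (Order.succ_le_of_lt hν) hν'
      have hθν : θ₀ ≤ ν := by
        rw [← heq] at hlt
        exact Order.le_of_lt_succ hlt
      subst heq
      rcases isRegular_or_isSingular (hθ₀.aleph0_le.trans hθν) with h | h
      · exact Ext.trans (ih ν hν θ₀ hθ₀ h hθν) (ext_succ hS hsymm hirr h)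
      · have hθν' : θ₀ < ν := lt_of_le_of_ne hθν (fun heq => h.not_isRegular (heq ▸ hθ₀))
        exact ext_singular hS hsymm h hθ₀ hθν'
          (fun θ θ' h1 h2 h3 h4 => ih θ' (h4.trans hν) θ h1 h2 h3)

end Pool.Agent.Helper31.RSU
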