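import Pool.Agent.Helper31.RSU.Greedy

set_option autoImplicit false

open Cardinal Set

namespace Pool.Agent.Helper31.RSU

universe u

variable {P : Type u} {adj : P → P → Prop} {S : Cardinal.{u} → Set P}

lemma IsKernel.mono (hS : IsKernel adj S) {θ θ' : Cardinal.{u}} (hθ : θ.IsRegular)
    (hθ' : θ'.IsRegular) (h : θ ≤ θ') : S θ ⊆ S θ' := by
  intro v hv
  by_contra hv'
  obtain ⟨θ'', hr, hle, hlarge⟩ := hS.k2 hθ' hv'
  exact absurd (hS.k1 hθ hr (h.trans hle) hv) (not_lt.2 hlarge)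

/-- partial solutions below `θ` -/
structure PS (adj : P → P → Prop) (S : Cardinal.{u} → Set P) (θ : Cardinal.{u}) (Q H : Set P) :
    Prop where
  card : #Q < θ
  sub : H ⊆ Q
  subS : H ⊆ S θ
  anti : ∀ x ∈ H, ∀ y ∈ H, ¬ adj x y
  ok : ∀ v ∈ S θ, (nb adj v ∩ H).Subsingleton ∨ (nb adj v ∩ H).Infinite
  out : ∀ v ∈ S θ, v ∉ Q → nb adj v ∩ H = ∅

/-- enlarging `Q` is harmless -/
lemma PS.enlarge {θ : Cardinal.{u}} {Q H Q' : Set P} (h : PS adj S θ Q H) (hQ : Q ⊆ Q')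
    (hc : #Q' < θ) : PS adj S θ Q' H where
  card := hc
  sub := h.sub.trans hQ
  subS := h.subS
  anti := h.anti
  ok := h.ok
  out v hv hvQ := h.out v hv (fun h' => hvQ (hQ h'))

/-- extension property -/
def Ext (adj : P → P → Prop) (S : Cardinal.{u} → Set P) (θ₀ θ₁ : Cardinal.{u}) : Prop :=
  ∀ Q H : Set P, PS adj S θ₀ Q H → ∃ Q' H' : Set P, PS adj S θ₁ Q' H' ∧ Q ⊆ Q' ∧ H ⊆ H' ∧
    ∀ v ∈ Q, ∀ θ : Cardinal.{u}, θ.IsRegular → θ₀ ≤ θ → θ < θ₁ →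
      θ ≤ #(nb adj v ∩ S θ : Set P) → (nb adj v ∩ H').Infinite

lemma Ext.refl (θ : Cardinal.{u}) : Ext adj S θ θ := fun Q H h =>
  ⟨Q, H, h, Subset.rfl, Subset.rfl, fun _ _ _ _ h1 h2 => absurd h2 (not_lt.2 h1)⟩

lemma Ext.trans {θ₀ θ₁ θ₂ : Cardinal.{u}} (h01 : Ext adj S θ₀ θ₁) (h12 : Ext adj S θ₁ θ₂) :
    Ext adj S θ₀ θ₂ := by
  intro Q H h
  obtain ⟨Q1, H1, h1, hQ1, hH1, hs1⟩ := h01 Q H h
  obtain ⟨Q2, H2, h2, hQ2, hH2, hs2⟩ := h12 Q1 H1 h1
  refine ⟨Q2, H2, h2, hQ1.trans hQ2, hH1.trans hH2, fun v hv θ hθ hle hlt hl => ?_⟩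
  by_cases hc : θ < θ₁
  · exact (hs1 v hv θ hθ hle hc hl).mono (inter_subset_inter_right _ hH2)
  · exact hs2 v (hQ1 hv) θ hθ (not_lt.1 hc) hlt hl

/-- a countable closure -/
lemma exists_closed {κ : Cardinal.{u}} (hκ : κ.IsRegular) (hω : ℵ₀ < κ) (F : Set P → Set P)
    (hFc : ∀ Q : Set P, #Q < κ → #(F Q) < κ) (Q₀ : Set P) (hQ₀ : #Q₀ < κ) :
    ∃ Q : ℕ → Set P, Q₀ ⊆ Q 0 ∧ (∀ n, Q n ∪ F (Q n) ⊆ Q (n+1)) ∧ #(⋃ n, Q n : Set P) < κ := by
  let Q : ℕ → Set P := fun n => Nat.rec Q₀ (fun _ A => A ∪ F A) n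
  have hQs : ∀ n, Q (n+1) = Q n ∪ F (Q n) := fun n => rfl
  have hc : ∀ n, #(↥(Q n)) < κ := by
    intro n
    induction n with
    | zero => exact hQ₀
    | succ n ih =>
      rw [hQs]
      exact (mk_union_le _ _).trans_lt (add_lt_of_lt hκ.aleph0_le ih (hFc _ ih))
  refine ⟨Q, Subset.rfl, fun n => (hQs n).ge, ?_⟩
  rw [iUnion_nat_lt hκ hω]
  exact hc

/-- The step from `θ` to its successor cardinal. -/
theorem ext_succ (hS : IsKernel adj S) (hsymm : ∀ x y, adj x y → adj y x)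
    (hirr : ∀ x, ¬ adj x x) {θ : Cardinal.{u}} (hθ : θ.IsRegular) :
    Ext adj S θ (Order.succ θ) := by
  classical
  intro Q₀ H₀ hPS
  set κ := Order.succ θ with hκdef
  have hκ : κ.IsRegular := isRegular_succ hθ.aleph0_le
  have hθκ : θ < κ := Order.lt_succ θ
  have hωκ : ℵ₀ < κ := hθ.aleph0_le.trans_lt hθκ
  have hSθκ : S θ ⊆ S κ := hS.mono hθ hκ hθκ.le
  -- choose for every v a subset of size θ if possible
  have hB : ∀ v : P, ∃ B : Set P, B ⊆ nb adj v ∩ S θ ∧ #B < κ ∧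
      (θ ≤ #(nb adj v ∩ S θ : Set P) → θ ≤ #B) := by
    intro v
    by_cases h : θ ≤ #(nb adj v ∩ S θ : Set P)
    · obtain ⟨B, hB1, hB2⟩ := le_mk_iff_exists_subset.1 h
      exact ⟨B, hB1, by rw [hB2]; exact hθκ, fun _ => hB2.ge⟩
    · exact ⟨∅, empty_subset _, by simpa using hκ.pos, fun h' => absurd h' h⟩
  choose B hB1 hB2 hB3 using hB
  let F : Set P → Set P := fun Q => (⋃ h ∈ Q ∩ S θ, nb adj h ∩ S κ) ∪ ⋃ v ∈ Q, B v
  have hFc : ∀ Q : Set P, #Q < κ → #(F Q) < κ := by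
    intro Q hQ
    refine (mk_union_le _ _).trans_lt (add_lt_of_lt hκ.aleph0_le ?_ ?_)
    · rw [card_biUnion_lt_iff_forall_of_isRegular hκ
        ((mk_le_mk_of_subset inter_subset_left).trans_lt hQ)]
      intro h hh
      exact hS.k1 hθ hκ hθκ.le hh.2
    · rw [card_biUnion_lt_iff_forall_of_isRegular hκ hQ]
      intro v _
      exact hB2 v
  obtain ⟨Qn, hQ0, hQstep, hQc⟩ := exists_closed hκ hωκ F hFc Q₀ (hPS.card.trans hθκ)
  set Q : Set P := ⋃ n, Qn n with hQdef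
  have hQ₀Q : Q₀ ⊆ Q := hQ0.trans (subset_iUnion Qn 0)
  have hcl1 : ∀ h ∈ Q, h ∈ S θ → nb adj h ∩ S κ ⊆ Q := by
    intro h hh hhS x hx
    obtain ⟨n, hn⟩ := mem_iUnion.1 hh
    refine mem_iUnion.2 ⟨n+1, hQstep n (Or.inr (Or.inl ?_))⟩
    exact mem_biUnion (show h ∈ Qn n ∩ S θ from ⟨hn, hhS⟩) hx
  have hcl2 : ∀ v ∈ Q, B v ⊆ Q := by
    intro v hv x hx
    obtain ⟨n, hn⟩ := mem_iUnion.1 hv
    exact mem_iUnion.2 ⟨n+1, hQstep n (Or.inr (Or.inr (mem_biUnion hn hx)))⟩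
  -- tasks
  let T : Set P := {v | v ∈ Q ∧ θ ≤ #(nb adj v ∩ S θ : Set P)}
  by_cases hT : T.Nonempty
  swap
  · -- no tasks: nothing to do
    have hnoT : ∀ v ∈ Q, ¬ θ ≤ #(nb adj v ∩ S θ : Set P) := fun v hv h => hT ⟨v, hv, h⟩
    have key : ∀ v ∈ S κ, v ∈ Q → v ∈ S θ := by
      intro v hv hvQ
      by_contra hvS
      obtain ⟨θ', hr, hle, hlarge⟩ := hS.k2 hθ hvS
      rcases hle.eq_or_lt with rfl | hlt
      · exact hnoT v hvQ hlarge
      · exact absurd (hS.k1 hκ hr (Order.succ_le_of_lt hlt) hv) (not_lt.2 hlarge)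
    have hout : ∀ v ∈ S κ, v ∉ Q → nb adj v ∩ H₀ = ∅ := by
      intro v hv hvQ
      rw [← not_nonempty_iff_eq_empty]
      rintro ⟨h, hvh, hh⟩
      exact hvQ (hcl1 h (hQ₀Q (hPS.sub hh)) (hPS.subS hh) ⟨hsymm _ _ hvh, hv⟩)
    refine ⟨Q, H₀, ⟨hQc, hPS.sub.trans hQ₀Q, hPS.subS.trans hSθκ, hPS.anti, ?_, hout⟩,
      hQ₀Q, Subset.rfl, ?_⟩
    · intro v hv
      by_cases hvQ : v ∈ Q
      · exact hPS.ok v (key v hv hvQ)
      · left
        rw [hout v hv hvQ]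
        exact subsingleton_empty
    · intro v hv θ' _ hle hlt hl
      have : θ' = θ := le_antisymm (Order.le_of_lt_succ hlt) hle
      subst this
      exact absurd hl (hnoT v (hQ₀Q hv))
  -- enumerate the tasks
  have hTc : #(T × ℕ) ≤ #(θ.ord.ToType) := by
    rw [mk_ord_toType]
    have h1 : #T ≤ θ := Order.le_of_lt_succ ((mk_le_mk_of_subset (fun v hv => hv.1)).trans_lt hQc)
    calc #(T × ℕ) = #T * ℵ₀ := by simp
      _ ≤ θ * θ := mul_le_mul' h1 hθ.aleph0_le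
      _ = θ := mul_eq_self hθ.aleph0_le
  have : Nonempty (T × ℕ) := by
    obtain ⟨v, hv⟩ := hT
    exact ⟨(⟨v, hv⟩, 0)⟩
  obtain ⟨e⟩ := hTc
  let f : θ.ord.ToType → T × ℕ := Function.invFun e
  have hf : Function.Surjective f := Function.invFun_surjective e.injective
  -- forbidden at the start
  let F₀ : Set P := Q₀ ∪ ⋃ v ∈ Q₀ ∩ S θ, (nb adj v ∩ S θ)
  have hF₀ : #F₀ < θ := by
    refine (mk_union_le _ _).trans_lt (add_lt_of_lt hθ.aleph0_le hPS.card ?_)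
    rw [card_biUnion_lt_iff_forall_of_isRegular hθ
      ((mk_le_mk_of_subset inter_subset_left).trans_lt hPS.card)]
    intro v hv
    exact hS.k1 hθ hθ le_rfl hv.2
  let A : θ.ord.ToType → Set P := fun i => (B (f i).1.1) \ F₀
  have hA : ∀ i, θ ≤ #(A i) := by
    intro i
    have h1 : θ ≤ #(B (f i).1.1) := hB3 _ (f i).1.2.2
    have h2 : #(B (f i).1.1) ≤ #(A i) + #F₀ := by
      refine (mk_le_mk_of_subset ?_).trans (mk_union_le _ _)
      intro x hx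
      by_cases hx' : x ∈ F₀
      · exact Or.inr hx'
      · exact Or.inl ⟨hx, hx'⟩
    by_contra hcon
    exact absurd (h1.trans h2) (not_le.2 (add_lt_of_lt hθ.aleph0_le (not_le.1 hcon) hF₀))
  let K : P → Set P := fun x => {y | y ∈ S θ ∧ (y = x ∨ adj x y ∨ ∃ v ∈ S θ, adj x v ∧ adj v y)}
  have hK : ∀ i, ∀ x ∈ A i, #(K x) < θ := by
    intro i x hx
    have hxS : x ∈ S θ := (hB1 _ hx.1).2
    have h1 : #(nb adj x ∩ S θ : Set P) < θ := hS.k1 hθ hθ le_rfl hxS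
    have h2 : #(⋃ v ∈ nb adj x ∩ S θ, (nb adj v ∩ S θ) : Set P) < θ := by
      rw [card_biUnion_lt_iff_forall_of_isRegular hθ h1]
      intro v hv
      exact hS.k1 hθ hθ le_rfl hv.2
    have h3 : #({x} : Set P) < θ := by
      rw [mk_singleton]
      exact one_lt_aleph0.trans_le hθ.aleph0_le
    have hsub : K x ⊆ {x} ∪ ((nb adj x ∩ S θ) ∪ ⋃ v ∈ nb adj x ∩ S θ, (nb adj v ∩ S θ)) := by
      rintro y ⟨hyS, rfl | hy | ⟨v, hvS, hxv, hvy⟩⟩
      · exact Or.inl rfl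
      · exact Or.inr (Or.inl ⟨hy, hyS⟩)
      · exact Or.inr (Or.inr (mem_biUnion (show v ∈ nb adj x ∩ S θ from ⟨hxv, hvS⟩) ⟨hvy, hyS⟩))
    refine (mk_le_mk_of_subset hsub).trans_lt ((mk_union_le _ _).trans_lt ?_)
    refine add_lt_of_lt hθ.aleph0_le h3 ((mk_union_le _ _).trans_lt ?_)
    exact add_lt_of_lt hθ.aleph0_le h1 h2
  obtain ⟨g, hgA, hgK⟩ := greedy hθ A hA K hK
  have hgS : ∀ i, g i ∈ S θ := fun i => (hB1 _ (hgA i).1).2
  have hgQ : ∀ i, g i ∈ Q := fun i => hcl2 _ (f i).1.2.1 (hgA i).1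
  have hgne : ∀ i j, j < i → g i ≠ g j := by
    intro i j hij heq
    exact hgK i j hij ⟨hgS i, Or.inl heq⟩
  have hgadj : ∀ i j, i ≠ j → ¬ adj (g i) (g j) := by
    intro i j hij hadj
    rcases lt_or_gt_of_ne hij with h | h
    · exact hgK j i h ⟨hgS j, Or.inr (Or.inl hadj)⟩
    · exact hgK i j h ⟨hgS i, Or.inr (Or.inl (hsymm _ _ hadj))⟩
  have hgcommon : ∀ v ∈ S θ, ∀ i j, i ≠ j → adj v (g i) → ¬ adj v (g j) := by
    intro v hv i j hij h1 h2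
    rcases lt_or_gt_of_ne hij with h | h
    · exact hgK j i h ⟨hgS j, Or.inr (Or.inr ⟨v, hv, hsymm _ _ h1, h2⟩)⟩
    · exact hgK i j h ⟨hgS i, Or.inr (Or.inr ⟨v, hv, hsymm _ _ h2, h1⟩)⟩
  have hginj : Function.Injective g := by
    intro i j hij
    by_contra hne
    rcases lt_or_gt_of_ne hne with h | h
    · exact hgne j i h hij.symm
    · exact hgne i j h hij
  have hgF₀ : ∀ i, ∀ v ∈ Q₀, v ∈ S θ → ¬ adj v (g i) := by
    intro i v hv hvS hadj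
    exact (hgA i).2 (Or.inr (mem_biUnion (show v ∈ Q₀ ∩ S θ from ⟨hv, hvS⟩) ⟨hadj, hgS i⟩))
  let H : Set P := H₀ ∪ range g
  have hHQ : H ⊆ Q := by
    rintro x (hx | ⟨i, rfl⟩)
    · exact hQ₀Q (hPS.sub hx)
    · exact hgQ i
  have hHS : H ⊆ S θ := by
    rintro x (hx | ⟨i, rfl⟩)
    · exact hPS.subS hx
    · exact hgS i
  have hsat : ∀ v ∈ T, (nb adj v ∩ H).Infinite := by
    intro v hv
    have hch : ∀ n : ℕ, ∃ i, f i = (⟨v, hv⟩, n) := fun n => hf _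
    choose idx hidx using hch
    have hinj : Function.Injective (fun n => g (idx n)) := by
      intro n m hnm
      have := hginj hnm
      have h2 := congrArg f this
      rw [hidx, hidx] at h2
      exact (Prod.ext_iff.1 h2).2
    refine (infinite_range_of_injective hinj).mono ?_
    rintro x ⟨n, rfl⟩
    refine ⟨?_, Or.inr ⟨_, rfl⟩⟩
    have h1 := (hB1 _ (hgA (idx n)).1).1
    rw [hidx n] at h1
    exact h1
  have hout : ∀ v ∈ S κ, v ∉ Q → nb adj v ∩ H = ∅ := by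
    intro v hv hvQ
    rw [← not_nonempty_iff_eq_empty]
    rintro ⟨h, hvh, hh⟩
    exact hvQ (hcl1 h (hHQ hh) (hHS hh) ⟨hsymm _ _ hvh, hv⟩)
  refine ⟨Q, H, ⟨hQc, hHQ, hHS.trans hSθκ, ?_, ?_, hout⟩, hQ₀Q, subset_union_left, ?_⟩
  · -- antichain
    rintro x (hx | ⟨i, rfl⟩) y (hy | ⟨j, rfl⟩)
    · exact hPS.anti x hx y hy
    · exact hgF₀ j x (hPS.sub hx) (hPS.subS hx)
    · exact fun h => hgF₀ i y (hPS.sub hy) (hPS.subS hy) (hsymm _ _ h)
    · by_cases hij : i = j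
      · subst hij
        exact hirr _
      · exact hgadj i j hij
  · -- ok
    intro v hv
    by_cases hvS : v ∈ S θ
    · by_cases hvQ : v ∈ Q₀
      · have : nb adj v ∩ H = nb adj v ∩ H₀ := by
          ext x
          constructor
          · rintro ⟨h1, h2 | ⟨i, rfl⟩⟩
            · exact ⟨h1, h2⟩
            · exact absurd h1 (hgF₀ i v hvQ hvS)
          · rintro ⟨h1, h2⟩
            exact ⟨h1, Or.inl h2⟩
        rw [this]
        exact hPS.ok v hvS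
      · left
        have hemp := hPS.out v hvS hvQ
        rintro x ⟨h1, h2 | ⟨i, rfl⟩⟩ y ⟨h3, h4 | ⟨j, rfl⟩⟩
        · exact absurd (show x ∈ nb adj v ∩ H₀ from ⟨h1, h2⟩) (by rw [hemp]; exact notMem_empty _)
        · exact absurd (show x ∈ nb adj v ∩ H₀ from ⟨h1, h2⟩) (by rw [hemp]; exact notMem_empty _)
        · exact absurd (show y ∈ nb adj v ∩ H₀ from ⟨h3, h4⟩) (by rw [hemp]; exact notMem_empty _)
        · by_contra hne
          exact hgcommon v hvS i j (fun h => hne (by rw [h])) h1 h3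
    · by_cases hvQ : v ∈ Q
      · right
        apply hsat v
        refine ⟨hvQ, ?_⟩
        obtain ⟨θ', hr, hle, hlarge⟩ := hS.k2 hθ hvS
        rcases hle.eq_or_lt with rfl | hlt
        · exact hlarge
        · exact absurd (hS.k1 hκ hr (Order.succ_le_of_lt hlt) hv) (not_lt.2 hlarge)
      · left
        rw [hout v hv hvQ]
        exact subsingleton_empty
  · intro v hv θ' _ hle hlt hl
    have : θ' = θ := le_antisymm (Order.le_of_lt_succ hlt) hle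
    subst this
    exact hsat v ⟨hQ₀Q hv, hl⟩

end Pool.Agent.Helper31.RSU
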